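import Pool.Agent.Y677.RSZ.FinInst

set_option autoImplicit false

/-!
# Narrow progressions in ARBITRARY sets of `x` for which `x² - 2` is a prime

Whatever the set `S` of natural numbers `x` for which `x² - 2` is a prime, all elements of `S` in
`(X, X + Y]`, with at most `ε Y / log X` exceptions (an arbitrarily small proportion of the expected number of these
numbers), are terms of `l`-term arithmetic progressions contained in `S ∩ (X, X + Y]` whose difference is at most a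
fixed power of `log X`; here `X ^ θ ≤ Y ≤ X` and `θ > 0` is arbitrarily small. The same holds for sets of numbers `x` for which `x² - 2` has no prime factor up to a small power of `x`.
-/

namespace Pool.Agent.Results.MP_0b748d_nt.NarrowProgressions

open Finset Filter

/-- `x` is a term of an `l`-term arithmetic progression contained in `S ∩ (u, v]`, with difference at most `D` -/
def OnProgression (S : Set ℕ) (l : ℕ) (D : ℝ) (u v x : ℕ) : Prop :=
  ∃ m d : ℕ, 1 ≤ d ∧ (d : ℝ) ≤ D ∧ (∀ i < l, m + i * d ∈ S ∧ u < m + i * d ∧ m + i * d ≤ v) ∧ ∃ i < l, x = m + i * d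

/-- all elements of `S` in `(u, v]` with at most `t` exceptions are terms of such progressions -/
def NearlyAll (S : Set ℕ) (l : ℕ) (D : ℝ) (u v : ℕ) (t : ℝ) : Prop :=
  ({x : ℕ | u < x ∧ x ≤ v ∧ x ∈ S ∧ ¬ OnProgression S l D u v x}.ncard : ℝ) ≤ t

/-- `x ≥ 2`, and all prime factors of `x² - 2` are larger than `x ^ (1 / r)` -/
def Rough (r x : ℕ) : Prop :=
  2 ≤ x ∧ ∀ p : ℕ, p.Prime → p ∣ x ^ 2 - 2 → (x : ℝ) ^ (1 / (r : ℝ)) < p

section aux
open Pool.Agent.TH464.PW (quad quad_eval quad_irr quad_deg quad_lead)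
open Pool.Agent.W123.RU

lemma sys : Poly.Sys (fun _ : Fin 1 => quad (1) (0) (-2)) where
  irr := fun _ => quad_irr 1 0 (-2) (by norm_num) (fun p hp h => by
    have h2 : p ∣ 1 := by exact_mod_cast h.1
    exact hp.one_lt.ne' (Nat.dvd_one.1 h2)) (by
    rintro ⟨x, hx⟩
    have h1 : x * x = 8 := by linarith
    have h2 : x < 3 := by nlinarith
    have h3 : -3 < x := by nlinarith
    interval_cases x <;> omega)
  deg := fun _ => by rw [quad_deg 1 0 (-2) (by norm_num)]; norm_num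
  lead := fun _ => by rw [quad_lead 1 0 (-2) (by norm_num)]; norm_num
  inj := fun _ _ _ => Subsingleton.elim _ _
  adm := fun p hp => by
    refine ⟨1, fun _ h => ?_⟩
    rw [quad_eval] at h
    have e : 1 * ((1 : ℕ) : ℤ) ^ 2 + 0 * ((1 : ℕ) : ℤ) + -2 = -1 := by norm_num
    rw [e, dvd_neg] at h
    have h2 : p ∣ 1 := by exact_mod_cast h
    exact hp.one_lt.ne' (Nat.dvd_one.1 h2)

lemma val (x : ℕ) (hx : 2 ≤ x) : (quad (1) (0) (-2)).eval (x : ℤ) = ((x ^ 2 - 2 : ℕ) : ℤ) := by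
  rw [quad_eval]
  have h4 : 2 ≤ x ^ 2 := by nlinarith
  push_cast [h4]
  ring

lemma rough_of (r m : ℕ) (h : Rough r m) : Pool.Agent.TH977.PW.Rough (fun _ : Fin 1 => (quad (1) (0) (-2))) r m := by
  have hm2 := h.1
  intro i p hp hd
  have h1 : (p : ℤ) ∣ (quad (1) (0) (-2)).eval (m : ℤ) := hd
  rw [val m hm2] at h1
  exact h.2 p hp (Int.natCast_dvd_natCast.1 h1)

lemma of_rough (r m : ℕ) (hm2 : 2 ≤ m) (h : Pool.Agent.TH977.PW.Rough (fun _ : Fin 1 => (quad (1) (0) (-2))) r m) :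
    Rough r m := by
  refine ⟨hm2, ?_⟩
  intro p hp hd
  apply h 0 p hp
  change (p : ℤ) ∣ (quad (1) (0) (-2)).eval (m : ℤ)
  rw [val m hm2]
  exact Int.natCast_dvd_natCast.2 hd

lemma of_few (r x : ℕ) (hm2 : 2 ≤ x) (h : Pool.Agent.TH977.PW.Few (fun _ : Fin 1 => (quad (1) (0) (-2))) r x) :
    (x ^ 2 - 2).primeFactorsList.length ≤ r := by
  have h1 : ((quad (1) (0) (-2)).eval (x : ℤ)).natAbs.primeFactorsList.length ≤ r := h 0
  rw [val x hm2, Int.natAbs_natCast] at h1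
  exact h1

/-- prime values are rough -/
lemma prime_rough (r : ℕ) (hr : 2 ≤ r) (x : ℕ) (h : (x ^ 2 - 2).Prime) : Rough r x := by
  have hle : 2 ≤ x ∧ x ≤ x ^ 2 - 2 := by
    have h1 := h.two_le
    have h2 : 2 ≤ x := by
      by_contra hc
      have h3 : x ≤ 1 := by omega
      have h4 : x ^ 2 ≤ 1 := by nlinarith
      omega
    refine ⟨h2, ?_⟩
    have h5 : x + 2 ≤ x ^ 2 := by nlinarith
    omega
  refine ⟨hle.1, ?_⟩
  intro p hp hd
  have h1 : p = x ^ 2 - 2 := (Nat.prime_dvd_prime_iff_eq hp h).1 hd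
  have h2 : x ≤ p := by rw [h1]; exact hle.2
  rcases Nat.lt_or_ge x 2 with h3 | h3
  · rcases Nat.eq_zero_or_pos x with h0 | h0
    · subst h0
      rw [Nat.cast_zero, Real.zero_rpow (by
        have : (0 : ℝ) < r := by exact_mod_cast (by omega : 0 < r)
        positivity)]
      exact_mod_cast hp.pos
    · have h4 : x = 1 := by omega
      subst h4
      rw [Nat.cast_one, Real.one_rpow]
      exact_mod_cast hp.one_lt
  · exact Pool.Agent.TH977.PW.rpow_lt_of_le r x p hr h3 h2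

end aux

open Classical in
lemma out_eq (S : Set ℕ) (l : ℕ) (D : ℝ) (u v : ℕ) :
    ({x : ℕ | u < x ∧ x ≤ v ∧ x ∈ S ∧ ¬ OnProgression S l D u v x}.ncard : ℝ) =
      (Pool.Agent.TH977.PW.N (Pool.Agent.Y677.RSZ.Outside S l D u v) u v : ℝ) := by
  unfold Pool.Agent.TH977.PW.N
  rw [← Set.ncard_coe_finset]
  congr 2
  ext n
  rw [mem_coe, mem_filter, mem_Ioc]
  constructor
  · rintro ⟨h1, h2, h3, h4⟩
    exact ⟨⟨h1, h2⟩, h3, h4⟩
  · rintro ⟨⟨h1, h2⟩, h3, h4⟩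
    exact ⟨h1, h2, h3, h4⟩

/-- **Narrow progressions in arbitrary sets of `x` for which `x² - 2` is a prime.** -/
theorem result (θ : ℝ) (hθ : 0 < θ) (hθ1 : θ ≤ 1) :
    -- prime values
    (∀ l : ℕ, 2 ≤ l → ∀ ε : ℝ, 0 < ε → ∃ B : ℕ, ∀ᶠ X : ℕ in atTop, ∀ Y : ℕ, (X : ℝ) ^ θ ≤ Y → Y ≤ X →
      ∀ S : Set ℕ, (∀ x ∈ S, (x ^ 2 - 2).Prime) →
        NearlyAll S l (Real.log X ^ B) X (X + Y) (ε * (Y / Real.log X))) ∧
    -- rough values
    ∃ r₀ : ℕ, ∀ r : ℕ, r₀ ≤ r →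
      (∀ l : ℕ, 2 ≤ l → ∀ ε : ℝ, 0 < ε → ∃ B : ℕ, ∀ᶠ X : ℕ in atTop, ∀ Y : ℕ,
        (X : ℝ) ^ θ ≤ Y → Y ≤ X → ∀ S : Set ℕ, (∀ x ∈ S, Rough r x) →
          NearlyAll S l (Real.log X ^ B) X (X + Y) (ε * (Y / Real.log X))) ∧
      ∃ κ : ℝ, 0 < κ ∧ ∀ᶠ X : ℕ in atTop, ∀ Y : ℕ, (X : ℝ) ^ θ ≤ Y → Y ≤ X → κ * (Y / Real.log X) ≤
        ({x : ℕ | X < x ∧ x ≤ X + Y ∧ Rough r x ∧ (x ^ 2 - 2).primeFactorsList.length ≤ r}.ncard : ℝ) := by
  classical
  obtain ⟨r0, hr0, h⟩ := Pool.Agent.Y677.RSZ.narrow_final _ (sys)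
    (fun r => {x | Rough r x}) (fun r => {x | 2 ≤ x → Rough r x ∧ (x ^ 2 - 2).primeFactorsList.length ≤ r}) 1 (by rw [Fintype.card_fin])
    (fun r m hr hm => rough_of r m hm) (fun r m hr h1 h2 => fun hm2 => ⟨of_rough r m hm2 h1, of_few r m hm2 h2⟩) θ hθ hθ1
  have key : ∀ r : ℕ, r0 ≤ r → ∀ l : ℕ, 2 ≤ l → ∀ ε : ℝ, 0 < ε → ∃ B : ℕ, ∀ᶠ X : ℕ in atTop, ∀ Y : ℕ,
      (X : ℝ) ^ θ ≤ Y → Y ≤ X → ∀ S : Set ℕ, (∀ x ∈ S, Rough r x) →
        NearlyAll S l (Real.log X ^ B) X (X + Y) (ε * (Y / Real.log X)) := by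
    intro r hr l hl ε hε
    obtain ⟨B, hB⟩ := (h r hr).2 l hl ε hε
    refine ⟨B, ?_⟩
    filter_upwards [hB] with X hX Y hXY hYX S hS
    have h1 := hX Y hXY hYX S (fun x hx => hS x hx)
    unfold NearlyAll
    rw [out_eq]
    rw [pow_one] at h1
    calc _ ≤ ε * Y / Real.log X := h1
      _ = _ := by ring
  refine ⟨?_, r0, fun r hr => ⟨key r hr, ?_⟩⟩
  · intro l hl ε hε
    obtain ⟨B, hB⟩ := key r0 le_rfl l hl ε hε
    refine ⟨B, ?_⟩
    filter_upwards [hB] with X hX Y hXY hYX S hS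
    exact hX Y hXY hYX S (fun x hx => prime_rough r0 hr0 x (hS x hx))
  · obtain ⟨κ, hκ, h2⟩ := (h r hr).1
    refine ⟨κ, hκ, ?_⟩
    filter_upwards [h2, eventually_ge_atTop 2] with X hX hX2 Y hXY hYX
    have h3 := hX Y hXY hYX
    rw [pow_one] at h3
    unfold Pool.Agent.TH977.PW.N at h3
    have h4 : {x : ℕ | X < x ∧ x ≤ X + Y ∧ Rough r x ∧ (x ^ 2 - 2).primeFactorsList.length ≤ r} =
        (((Ioc X (X + Y)).filter (fun m => m ∈ {x | 2 ≤ x → Rough r x ∧ (x ^ 2 - 2).primeFactorsList.length ≤ r}) :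
          Finset ℕ) : Set ℕ) := by
      ext n
      rw [mem_coe, mem_filter, mem_Ioc]
      constructor
      · rintro ⟨g1, g2, g3⟩
        exact ⟨⟨g1, g2⟩, fun _ => g3⟩
      · rintro ⟨⟨g1, g2⟩, g3⟩
        exact ⟨g1, g2, g3 (by omega)⟩
    rw [h4, Set.ncard_coe_finset]
    calc κ * (Y / Real.log X) = κ * Y / Real.log X := by ring
      _ ≤ _ := h3
      _ = _ := by
        norm_cast
        exact congrArg card (Finset.ext fun n => by simp only [mem_filter])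

end Pool.Agent.Results.MP_0b748d_nt.NarrowProgressions
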