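import Pool.Agent.Q48.RD.QArg

/-!
# Simultaneous primes `m ^ 2 - 2` at several linear arguments `m = c_j n + d_j`, in short intervals

Let `l ≥ 2` and let `m_j = c_j n + d_j` (`c_j ≥ 1`, `d_j ≥ 0`) be linear arguments, no two of them integer translates of each other
(for example `c_1 < c_2 < … < c_l` and arbitrary `d_j`), for which the numbers `m_j ^ 2 - 2` have no fixed prime divisor. We count the
`n` in `(x, x + T]` for which ALL the numbers `m_j ^ 2 - 2`, `j ≤ l`, are primes (or almost primes).

Let `g ≥ 2` be a base and `K` a large number of digits. For every `i < K` let `A i` be an arbitrary set of digits, such that the number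
`|A 0| ⋯ |A (K - 1)|` of the integers `t < g ^ K` whose `i`-th digit belongs to `A i` for all `i < K` is at least `exp (- δ K) g ^ K`.
Let `N ≤ g ^ (E K)` be arbitrary (`N ≥ 2`). We consider the numbers `x = N + t` with these `t`: they form a set with only
`y ^ (1 - δ')` elements in an interval of length `y = g ^ K`, which may be an arbitrarily small power of `x`.

Let `k ≥ 1` and `T ≤ g ^ (E K)`. The conjecture of Bateman and Horn for the `k l` polynomials `(c_j (x + h_i) + d_j) ^ 2 - 2`, averaged
over the shifts `h_1, …, h_k ≤ T`, predicts that the mean value of the `k`-th power of this number has the order of magnitude of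
`(T / K ^ l) ^ k` for `T ≥ K ^ l` and of `T / K ^ l` for `T ≤ K ^ l`. We prove

(1) the upper bound of this order for the primes, for `x` in all these sets;

(2) the exact order of magnitude for the almost primes;

(3) that a positive proportion (for `T ≤ K ^ l`: the expected proportion `T / K ^ l`) of the intervals `(x, x + T]` contains the
expected number of such `n`, with almost primes.
-/

set_option autoImplicit false

namespace Pool.Agent.Results.MP_0b748d_nt.SimultaneousPrimeValues

open Filter Finset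
open Pool.Agent.Q315.RD Pool.Agent.Q48.RD

/-- The numbers of the question: `m ^ 2 - 2` (we use it for `m ≥ 2` only). -/
def val (m : ℕ) : ℕ := m ^ 2 - 2

/-- The arguments `m_j = c_j n + d_j` are admissible: `c_j ≥ 1`, no two of them are integer translates of each other
(`c_i (n + t) + d_i = c_j n + d_j` for all `n`), and for no prime `p` is the product of the numbers `m_j ^ 2 - 2` divisible by `p` for
all `n` ≥ 2. -/
structure Admissible {l : ℕ} (c d : Fin l → ℕ) : Prop where
  pos : ∀ j, 1 ≤ c j
  notTranslates : ∀ i j, i ≠ j → c i = c j → ∀ t : ℤ, (d i : ℤ) ≠ d j + c j * t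
  noFixedPrime : ∀ p : ℕ, p.Prime → ∃ n : ℕ, 2 ≤ n ∧ ∀ j, ¬ p ∣ val (c j * n + d j)

/-- The number of the `n` with `x < n ≤ x + T` for which all the numbers `(c_j n + d_j) ^ 2 - 2` are primes. -/
def primesIn {l : ℕ} (c d : Fin l → ℕ) (x T : ℕ) : ℕ := ((Ioc x (x + T)).filter fun n => ∀ j, (val (c j * n + d j)).Prime).card

open Classical in
/-- The number of the `n` with `x < n ≤ x + T` for which all the numbers `(c_j n + d_j) ^ 2 - 2` have at most `r` prime factors, all
larger than `y ^ (1 / r)`. -/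
noncomputable def almostPrimesIn (y r : ℕ) {l : ℕ} (c d : Fin l → ℕ) (x T : ℕ) : ℕ :=
  ((Ioc x (x + T)).filter fun n => ∀ j, AlmostPrime y r (val (c j * n + d j))).card

open Classical in
/-- The integers `t < g ^ K` whose `i`-th digit belongs to `A i` for all `i < K`. -/
noncomputable def digitSet (g K : ℕ) (A : ℕ → Finset ℕ) : Finset ℕ := (range (g ^ K)).filter (HasDigits g K A)

/-- The predicted order of magnitude of the mean value of the `k`-th power: `T / K ^ l` for `T ≤ K ^ l` and `(T / K ^ l) ^ k` for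
`T ≥ K ^ l`. -/
noncomputable def order (l k T K : ℕ) : ℝ := min 1 ((T : ℝ) / (K : ℝ) ^ l) * max 1 ((T : ℝ) / (K : ℝ) ^ l) ^ k

/-- **Simultaneous primes `(c_j n + d_j) ^ 2 - 2` in short intervals.** -/
theorem result {l : ℕ} (_hl : 2 ≤ l) (c d : Fin l → ℕ) (h : Admissible c d) (k : ℕ) (hk : 1 ≤ k) (E : ℕ) :
    ∃ δ : ℝ, 0 < δ ∧ ∃ r₀ : ℕ, 2 ≤ r₀ ∧ ∀ r : ℕ, r₀ ≤ r → ∀ g : ℕ, 2 ≤ g → ∃ κ C : ℝ, 0 < κ ∧ 0 < C ∧
      ∀ᶠ K : ℕ in atTop, ∀ N T : ℕ, 2 ≤ N → N ≤ g ^ (E * K) → 1 ≤ T → T ≤ g ^ (E * K) →
        ∀ A : ℕ → Finset ℕ, (∀ i < K, A i ⊆ range g) → (g : ℝ) ^ K ≤ Real.exp (δ * K) * choices K A →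
        -- the primes
        ∑ t ∈ digitSet g K A, (primesIn c d (N + t) T : ℝ) ^ k ≤ C * order l k T K * choices K A ∧
        -- the almost primes
        ∑ t ∈ digitSet g K A, (almostPrimesIn (g ^ K) r c d (N + t) T : ℝ) ^ k ≤ C * order l k T K * choices K A ∧
        (g ≤ T →
          κ * order l k T K * choices K A ≤ ∑ t ∈ digitSet g K A, (almostPrimesIn (g ^ K) r c d (N + t) T : ℝ) ^ k ∧
          κ * min 1 ((T : ℝ) / (K : ℝ) ^ l) * choices K A ≤
            (((digitSet g K A).filter fun t => κ * max 1 ((T : ℝ) / (K : ℝ) ^ l) ≤ almostPrimesIn (g ^ K) r c d (N + t) T).card : ℝ)) := by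
  classical
  obtain ⟨δ, hδ, r0, hr0, H⟩ := quadArgMoments 1 0 (-2) (by norm_num) (by
      norm_num) val 2
    (by
      intro m hm
      unfold val
      have h1 : 2 ≤ m ^ 2 := by nlinarith
      push_cast [Nat.cast_sub h1]
      ring)
    (by
      intro m hm
      unfold val
      have h1 : m * 2 ≤ m ^ 2 := by nlinarith
      omega)
    c d h.pos h.notTranslates (fun p hp => by
      obtain ⟨n, hn2, hn⟩ := h.noFixedPrime p hp
      refine ⟨n, fun j hh => hn j ?_⟩
      have h0 := h.pos j
      have h1 : n ≤ c j * n := Nat.le_mul_of_pos_left n h0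
      have h2 : 2 ≤ (c j * n + d j) ^ 2 := by nlinarith [Nat.zero_le (d j)]
      have h3 : (1 : ℤ) * ((c j * n + d j : ℕ) : ℤ) ^ 2 + 0 * ((c j * n + d j : ℕ) : ℤ) + (-2) = ((val (c j * n + d j) : ℕ) : ℤ) := by
        unfold val
        rw [Nat.cast_sub h2]
        push_cast
        ring
      rw [h3] at hh
      exact_mod_cast hh) k hk E
  refine ⟨δ, hδ, r0, hr0, fun r hr g hg => ?_⟩
  obtain ⟨κ, C, hκ, hC, H⟩ := H r hr g hg
  refine ⟨κ, C, hκ, hC, ?_⟩
  filter_upwards [H] with K HK
  intro N T hN2 hN hT1 hT A hA1 hA2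
  obtain ⟨h1, h2, h3⟩ := HK N T hN2 hN hT1 hT A ⟨hA1, hA2⟩
  have e1 : ∀ x, primesIn c d x T = numIn (fun n => ∀ j, (val (c j * n + d j)).Prime) x T := by
    intro x
    unfold primesIn numIn
    congr!
  have e2 : ∀ x, almostPrimesIn (g ^ K) r c d x T = numIn (fun n => ∀ j, AlmostPrime (g ^ K) r (val (c j * n + d j))) x T := by
    intro x
    unfold almostPrimesIn numIn
    congr!
  simp only [e1, e2]
  refine ⟨h1, h2, fun hgT => ⟨(h3 hgT).1, (h3 hgT).2.trans (le_of_eq ?_)⟩⟩
  unfold count digitSet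
  rw [filter_filter]

end Pool.Agent.Results.MP_0b748d_nt.SimultaneousPrimeValues
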